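import Pool.Agent.Lib.MP_af3a4a_an.P1.CHK.DATA.N3.K0

/-! glue for 3 <= N <= 3 (generated) -/

set_option autoImplicit false
set_option maxRecDepth 100000

namespace Pool.Agent.Lib.MP_af3a4a_an.P1.CHK.DATA.N3

open BOX

theorem g0 : ChunkP 3 3 2560 3072 0 64 1126 1460 := ChunkP.g k2 k3
theorem g1 : ChunkP 3 3 2560 3072 0 101 1126 1460 := ChunkP.g g0 k4
theorem g2 : ChunkP 3 3 2048 3072 0 101 1126 1460 := ChunkP.r k1 g1
theorem g3 : ChunkP 3 3 3072 3584 32 64 1126 1460 := ChunkP.g k6 k7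
theorem g4 : ChunkP 3 3 3072 3584 0 64 1126 1460 := ChunkP.g k5 g3
theorem g5 : ChunkP 3 3 3072 3584 0 101 1126 1460 := ChunkP.g g4 k8
theorem g6 : ChunkP 3 3 3584 4096 0 32 1126 1460 := ChunkP.g k9 k10
theorem g7 : ChunkP 3 3 3584 4096 32 64 1126 1460 := ChunkP.g k11 k12
theorem g8 : ChunkP 3 3 3584 4096 0 64 1126 1460 := ChunkP.g g6 g7
theorem g9 : ChunkP 3 3 3584 4096 0 101 1126 1460 := ChunkP.g g8 k13
theorem g10 : ChunkP 3 3 3072 4096 0 101 1126 1460 := ChunkP.r g5 g9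
theorem g11 : ChunkP 3 3 2048 4096 0 101 1126 1460 := ChunkP.r g2 g10
theorem g12 : ChunkP 3 3 0 4096 0 101 1126 1460 := ChunkP.r k0 g11

/-- the whole box -/
theorem allBox : ChunkP 3 3 0 4096 0 101 1126 1460 := g12

end Pool.Agent.Lib.MP_af3a4a_an.P1.CHK.DATA.N3
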